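import Pool.Agent.H.MP_035081_al.Defs

set_option autoImplicit false

namespace Pool.Agent.H.MP_035081_al
open Function Subgroup QuotientGroup

variable {G H : Type} [Group G] [Group H] {X : Cls} {p : ℕ}

theorem Fit.rng (hX : Fit X) (f : G →* H) (hf : Injective f) {S : Subgroup H} (e : f.range = S) :
    X G ↔ X S :=
  e ▸ ⟨hX.2.1 _ _ ⟨MonoidHom.ofInjective hf⟩, hX.2.1 _ _ ⟨(MonoidHom.ofInjective hf).symm⟩⟩

theorem Fit.inj (hX : Fit X) (f : G →* H) (hf : Injective f) (n : f.range.Normal) (h : X H) : X G :=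
  (hX.rng f hf rfl).2 (hX.2.2.1 _ _ n h)

theorem Fit.of (hX : Fit X) {U V : Subgroup G} (h : U ≤ V) : X (U.subgroupOf V) ↔ X U :=
  ⟨hX.2.1 _ _ ⟨subgroupOfEquivOfLe h⟩, hX.2.1 _ _ ⟨(subgroupOfEquivOfLe h).symm⟩⟩

theorem Fit.down (hX : Fit X) {U V : Subgroup G} (h : U ≤ V) (hn : (U.subgroupOf V).Normal)
    (hV : X V) : X U := (hX.of h).1 (hX.2.2.1 _ _ hn hV)

theorem Fit.top (hX : Fit X) : X (⊤ : Subgroup G) ↔ X G :=
  ⟨hX.2.1 _ _ ⟨topEquiv⟩, hX.2.1 _ _ ⟨topEquiv.symm⟩⟩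

theorem Fit.triv (hX : Fit X) (h : NE X) [Subsingleton G] : X G := by
  obtain ⟨K, _, h⟩ := h
  have : Unique G := uniqueOfSubsingleton 1
  exact hX.2.1 _ _ ⟨MulEquiv.ofUnique⟩ (hX.2.2.1 K ⊥ inferInstance h)

theorem le_rad {N : Subgroup G} (n : N.Normal) (h : X N) : N ≤ rad X G := le_sSup ⟨n, h⟩

theorem Fit.rad_mem (hX : Fit X) (h : NE X) [Finite G] : X (rad X G) := by
  obtain ⟨N, h1, h2⟩ := (Set.toFinite {N : Subgroup G | N.Normal ∧ X N}).exists_maximal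
    ⟨⊥, inferInstance, hX.triv h⟩
  have := h1.1
  rw [show rad X G = N from le_antisymm (sSup_le fun K k => have := k.1; le_sup_right.trans
    (h2 ⟨inferInstance, hX.2.2.2 _ _ _ h1.1 k.1 h1.2 k.2⟩ le_sup_left)) (le_rad h1.1 h1.2)]
  exact h1.2

theorem Fit.of_rad (hX : Fit X) (h : NE X) [Finite G] (e : ∀ g, g ∈ rad X G) : X G :=
  hX.top.1 ((eq_top_iff' _).2 e ▸ hX.rad_mem h)

theorem Fit.map (hX : Fit X) (f : G →* H) (hf : Injective f) {S : Subgroup G} (h : X S) :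
    X (S.map f) := hX.2.1 _ _ ⟨S.equivMapOfInjective f hf⟩ h

theorem Fit.comap_rad (hX : Fit X) (h : NE X) [Finite H] (f : G →* H) (hf : Injective f)
    (n : f.range.Normal) : (rad X H).comap f ≤ rad X G := by
  refine le_rad inferInstance (hX.2.1 _ _ ⟨(Subgroup.equivMapOfInjective _ f hf).symm⟩ ?_)
  rw [map_comap_eq]
  exact hX.down inf_le_right (by rw [inf_subgroupOf_right]; infer_instance) (hX.rad_mem h)

theorem Fit.map_rad (hX : Fit X) (N : Subgroup G) [N.Normal] :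
    ((rad X N).map N.subtype).Normal := by
  have : (rad X N).Characteristic := characteristic_iff_map_le.2 fun e =>
    map_le_iff_le_comap.2 (sSup_le fun K k => map_le_iff_le_comap.1
      (le_rad (k.1.map _ e.surjective) (hX.map _ e.injective k.2)))
  infer_instance

theorem Fit.map_le (hX : Fit X) (h : NE X) [Finite G] (N : Subgroup G) [N.Normal] :
    (rad X N).map N.subtype ≤ rad X G :=
  le_rad (hX.map_rad N) (hX.map _ N.subtype_injective (hX.rad_mem h))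

theorem Fit.prod (hX : Fit X) (h : X G) (h' : X H) : X (G × H) := by
  have := hX.1 _ h
  have := hX.1 _ h'
  refine hX.of_rad ⟨G, _, h⟩ fun g => g.fst_mul_snd ▸ mul_mem ?_ ?_
  · exact le_rad (N := (MonoidHom.inl G H).range) ⟨by
      rintro _ ⟨x, rfl⟩ f; exact ⟨f.1 * x * f.1⁻¹, by ext <;> simp⟩⟩
      ((hX.rng _ (fun _ _ e => congrArg Prod.fst e) rfl).1 h) ⟨_, rfl⟩
  · exact le_rad (N := (MonoidHom.inr G H).range) ⟨by
      rintro _ ⟨x, rfl⟩ f; exact ⟨f.2 * x * f.2⁻¹, by ext <;> simp⟩⟩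
      ((hX.rng _ (fun _ _ e => congrArg Prod.snd e) rfl).1 h') ⟨_, rfl⟩

theorem Fit.pi (hX : Fit X) (h : X G) (I : Type) [Finite I] : X (I → G) := by
  classical
  have := hX.1 _ h
  refine hX.of_rad ⟨G, _, h⟩ fun g => pi_mem_of_mulSingle_mem g fun i =>
    le_rad (N := (MonoidHom.mulSingle (fun _ => G) i).range) ⟨?_⟩
      ((hX.rng _ (Pi.mulSingle_injective (M := fun _ => G) i) rfl).1 h) ⟨_, rfl⟩
  rintro _ ⟨x, rfl⟩ f
  refine ⟨f i * x * (f i)⁻¹, funext fun j => ?_⟩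
  by_cases e : j = i
  · subst e; simp
  · simp [e]

theorem Fit.sn (hX : Fit X) {N M : Subgroup G} (h : X N) (hM : M.IsSubnormal) :
    X (N ⊓ M : Subgroup G) := by
  induction hM with
  | top => rwa [inf_top_eq]
  | step U V a _ b ih =>
    exact hX.down (inf_le_inf_left _ a) ((normal_subgroupOf_iff (inf_le_inf_left _ a)).2
      fun x y hx hy => ⟨N.mul_mem (N.mul_mem hy.1 hx.1) (N.inv_mem hy.1),
        (normal_subgroupOf_iff a).1 b x y hx.2 hy.2⟩) ih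

def pel (p : ℕ) (a : G) : Prop := ∃ k, a ^ p ^ k = 1

def PC (p : ℕ) (G : Type) [Group G] : Prop := ∀ a b : G, pel p a → pel p b → pel p (a * b)

theorem pel.map {a : G} (h : pel p a) (f : G →* H) : pel p (f a) :=
  h.imp fun k e => by rw [← map_pow, e, map_one]

theorem pel_mk {N : Subgroup G} [N.Normal] {a : G} : pel p (mk' N a) ↔ ∃ k, a ^ p ^ k ∈ N :=
  exists_congr fun _ => by rw [← map_pow]; exact eq_one_iff _

theorem mem_of_cop {J : Subgroup G} {a : G} {n m : ℕ} (c : n.Coprime m) (h : a ^ n ∈ J)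
    (e : a ^ m = 1) : a ∈ J := by
  obtain ⟨k, hk⟩ := exists_pow_eq_self_of_coprime
    (c.coprime_dvd_right (orderOf_dvd_of_pow_eq_one e))
  exact hk ▸ pow_mem h k

theorem lift [Finite G] (hp : p.Prime) (f : G →* H) {a : G} (h : pel p (f a)) :
    ∃ k, pel p (a ^ k) ∧ f (a ^ k) = f a := by
  obtain ⟨k, m, hm, e⟩ := Nat.exists_eq_pow_mul_and_not_dvd (orderOf_pos a).ne' p hp.one_lt.ne'
  obtain ⟨l, hl⟩ := h
  obtain ⟨j, hj⟩ := exists_pow_eq_self_of_coprime ((((hp.coprime_iff_not_dvd.2 hm).pow_left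
    l).symm).coprime_dvd_right (orderOf_dvd_of_pow_eq_one hl))
  exact ⟨m * j, ⟨k, by rw [← pow_mul, mul_right_comm, mul_comm m, ← e, pow_mul, pow_orderOf_eq_one,
    one_pow]⟩, by rw [map_pow, pow_mul, hj]⟩

theorem pc_of [Finite G] (hp : p.Prime) {N : Subgroup G} [N.Normal]
    (h : ∀ a b : G, pel p a → pel p b → ∃ k, (a * b) ^ p ^ k ∈ N) : PC p (G ⧸ N) := fun a b ha hb => by
  obtain ⟨a, rfl⟩ := mk'_surjective N a
  obtain ⟨b, rfl⟩ := mk'_surjective N b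
  obtain ⟨k, a1, a2⟩ := lift hp _ ha
  obtain ⟨l, b1, b2⟩ := lift hp _ hb
  rw [← a2, ← b2, ← map_mul]
  exact pel_mk.2 (h _ _ a1 b1)

def pels (h : PC p G) : Subgroup G where
  carrier := {a | pel p a}
  mul_mem' := h _ _
  one_mem' := ⟨0, one_pow _⟩
  inv_mem' h := h.imp fun k e => by rw [inv_pow, e, inv_one]

instance (h : PC p G) : (pels h).Normal :=
  ⟨fun _ a g => pel.map a (MulAut.conj g).toMonoidHom⟩

theorem fitN : Fit (Np p) :=
  ⟨fun _ _ h => h.1, fun _ _ _ _ ⟨e⟩ h => have := h.1; ⟨.of_equiv _ e.toEquiv, h.2.of_equiv e⟩,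
    fun _ _ N _ h => have := h.1; ⟨inferInstance, h.2.to_subgroup N⟩,
    fun _ _ _ _ _ _ _ h k => ⟨inferInstance, h.2.to_sup_of_normal_right k.2⟩⟩

theorem neN : NE (Np p) := ⟨Unit, inferInstance, inferInstance, .of_subsingleton _ _⟩

theorem pc_iff [Finite G] (hp : p.Prime) : prod (Np p) (Ec p) G ↔ PC p G := by
  have : Fact p.Prime := ⟨hp⟩
  refine ⟨fun h a b ha hb => ?_, fun h => ⟨neN, ‹_›, inferInstance, fun e => ?_⟩⟩
  · have : ∀ a : G, pel p a → a ∈ rad (Np p) G := fun a ⟨k, e⟩ => mem_of_cop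
      ((hp.coprime_iff_not_dvd.2 h.2.2.2).pow_left k).symm (pow_index_mem _ a) e
    obtain ⟨k, e⟩ := (fitN.rad_mem neN).2 ⟨_, mul_mem (this a ha) (this b hb)⟩
    exact ⟨k, congrArg Subtype.val e⟩
  · obtain ⟨P⟩ : Nonempty (Sylow p G) := inferInstance
    refine P.not_dvd_index (e.trans (index_dvd_of_le (le_trans (fun x hx => ?_)
      (le_rad (N := pels h) inferInstance
        ⟨inferInstance, fun x => x.2.imp fun _ => Subtype.ext⟩))))
    exact (P.2 ⟨x, hx⟩).imp fun _ => congrArg Subtype.val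

theorem W_iff [Finite G] (hp : p.Prime) (h : NE X) :
    prod X (prod (Np p) (Ec p)) G ↔ PC p (G ⧸ rad X G) :=
  ⟨fun a => (pc_iff hp).1 a.2.2, fun a => ⟨h, ‹_›, (pc_iff hp).2 a⟩⟩

def LR (h : ℕ → Cls) (G : Type) [Group G] : Prop :=
  (∀ p, p.Prime → p ∣ Nat.card G → NE (h p)) ∧ ∀ p, p.Prime → NE (h p) → PC p (G ⧸ rad (h p) G)

theorem local_iff {F : Cls} (hF : Fit F) : Local F ↔ ∃ h : ℕ → Cls, (∀ p, p.Prime → Fit (h p)) ∧
    ∀ (G : Type) [Group G] [Finite G], F G ↔ LR h G :=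
  ⟨fun ⟨_, h, a, b⟩ => ⟨h, a, fun G _ _ => (b G).trans ⟨fun c => ⟨c.1.2, fun p hp n =>
    (W_iff hp n).1 (c.2 p hp n)⟩, fun c => ⟨⟨‹_›, c.1⟩, fun p hp n => (W_iff hp n).2 (c.2 p hp n)⟩⟩⟩,
    fun ⟨h, a, b⟩ => ⟨hF, h, a, fun G _ => ⟨fun c => have := hF.1 G c; ⟨⟨this, ((b G).1 c).1⟩,
      fun p hp n => (W_iff hp n).2 (((b G).1 c).2 p hp n)⟩, fun c => have := c.1.1; (b G).2
        ⟨c.1.2, fun p hp n => (W_iff hp n).1 (c.2 p hp n)⟩⟩⟩⟩

theorem psi [Finite G] {K : Subgroup G} (h : K ∈ PsiSet G) : ∃ N, IsLeast (PsiSet G) N := by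
  obtain ⟨N, -, hN⟩ := Finite.exists_le_minimal (p := (· ∈ PsiSet G)) h
  refine ⟨N, hN.prop, fun U hU => inf_eq_right.1 (hN.eq_of_le ⟨?_, fun M hM S _ => ?_⟩
    inf_le_right)⟩
  · have := hU.1; have := hN.prop.1; infer_instance
  · rw [inf_assoc]
    exact (hU.2 _ (hN.prop.1.isSubnormal.inf hM) S).trans (hN.prop.2 M hM S)

end Pool.Agent.H.MP_035081_al
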