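import Pool.Agent.H.MP_035081_al.A

set_option autoImplicit false

namespace Pool.Agent.H.MP_035081_al
open Function Subgroup QuotientGroup
open scoped commutatorElement

abbrev Z (q : ℕ) := Multiplicative (ZMod q)

variable {G H A : Type} [Group G] [Group H] [Group A] {F : Cls} {q : ℕ}

theorem zq [Fact q.Prime] (z : Z q) : z ^ q = 1 := by simpa using pow_card_eq_one' (x := z)

theorem pel.dvd (hq : q.Prime) {a : G} (h : pel q a) (h1 : a ≠ 1) : q ∣ orderOf a := by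
  obtain ⟨k, e⟩ := h
  obtain ⟨j, -, e⟩ := (Nat.dvd_prime_pow hq).1 (orderOf_dvd_of_pow_eq_one e)
  exact e ▸ dvd_pow_self q (by rintro rfl; exact h1 (orderOf_eq_one_iff.1 e))

theorem cm {U : Subgroup G} {a t : G} (h : a * t * a⁻¹ ∈ U) (ht : t ∈ U) : ⁅a, t⁆ ∈ U :=
  mul_mem h (inv_mem ht)

theorem sat [hq : Fact q.Prime] (hF : Fit F) (hS : Saturated F) [Finite H] (ρ : H →* Z q)
    (hK : F ρ.ker) (N : Subgroup H) [N.Normal] (hN : ∀ g, ∃ k, g ^ q ^ k ∈ N)
    (hX : ∀ X, Fit X → X A → X N) (κ : A →* H) (hκ : Injective κ) (h1 : ∀ a, ρ (κ a) = 1)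
    (h2 : ∀ g, ρ g = 1 → ∀ a, g * κ a * g⁻¹ ∈ κ.range)
    (h3 : ∀ u, ρ u ≠ 1 → u ^ q ≠ 1 ∧
      ∀ J : Subgroup A, (∀ a b, κ b = ⁅κ a, u ^ q⁆ → b ∈ J) → J = ⊤)
    (h4 : ∀ J : Subgroup A, (∀ a, ∃ k, a ^ q ^ k ∈ J) → J = ⊤) : F H := by
  have key : ρ.ker ∈ PsiSet H := by
    refine ⟨inferInstance, fun M hM S _ => ⟨fun a L hL b => a L hL (hL.1.down inf_le_right
      (by rw [inf_subgroupOf_right]; infer_instance) b), fun a L hL b => a L hL ?_⟩⟩
    replace b := (hL.1.of inf_le_right).2 b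
    rw [inf_subgroupOf_right] at b
    let J := ρ.ker.subgroupOf M
    by_cases c : ∀ m, m ∈ J
    · exact hL.1.top.1 ((eq_top_iff' _).2 c ▸ b)
    obtain ⟨h, hh, hL⟩ := (local_iff hL.1).1 hL
    replace b := (hL _).1 b
    obtain ⟨m, hm⟩ := not_forall.1 c
    obtain ⟨k, u1, u2⟩ := lift hq.1 (ρ.comp M.subtype) (a := m) ⟨1, by rw [pow_one, zq]⟩
    have u3 : ρ (m ^ k).1 ≠ 1 := fun e => hm (u2.symm.trans e)
    generalize m ^ k = u at *
    have qJ : ∀ g : M, g ^ q ∈ J := fun g => (map_pow (ρ.comp M.subtype) g q).trans (zq _)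
    obtain ⟨v1, v2⟩ := h3 _ u3
    let t : J := ⟨u ^ q, qJ u⟩
    have t1 : pel q t := u1.imp fun k e => Subtype.ext (by
      show (u ^ q) ^ q ^ k = 1
      rw [← pow_mul, mul_comm, pow_mul, e, one_pow])
    have ne : NE (h q) := b.1 q hq.1 ((t1.dvd hq.1 fun e => v1 (congrArg (·.1.1) e)).trans
      (_root_.orderOf_dvd_natCard t))
    have pJ : ∀ p, p.Prime → p ≠ q → ∀ g : M, pel p g → g ∈ J := fun p hp e g ⟨k, a⟩ =>
      mem_of_cop (((Nat.coprime_primes hq.1 hp).2 e.symm).pow_right k) (qJ g) a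
    refine (hL _).2 ⟨fun p hp d => ?_, fun p hp n => pc_of hp fun x y hx hy => ?_⟩
    · by_cases e : p = q
      · exact e ▸ ne
      have : Fact p.Prime := ⟨hp⟩
      obtain ⟨g, hg⟩ := exists_prime_orderOf_dvd_card' p d
      exact b.1 p hp (hg ▸ J.orderOf_dvd_natCard
        (pJ p hp e g ⟨1, by rw [pow_one, ← hg, pow_orderOf_eq_one]⟩))
    by_cases e : p = q
    · subst e
      have a : ∀ U : Subgroup H, U.IsSubnormal → u.1 ^ p ∈ U → ∀ a, κ a ∈ U := fun U hU => by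
        induction hU with
        | top => exact fun _ _ => trivial
        | step U V a _ b ih =>
          exact fun c x => (v2 (U.comap κ) fun x y e => mem_comap.2 (e ▸ cm
            ((normal_subgroupOf_iff a).1 b _ _ c (ih (a c) x)) c)).ge (mem_top x)
      let κ' : A →* J := (κ.codRestrict M (a M hM (u ^ p).2)).codRestrict J h1
      have c := v2 (((pels (b.2 p hp n)).comap (mk' _)).comap κ') fun x y e => by
        rw [mem_comap, show κ' y = ⁅κ' x, t⁆ from Subtype.ext (Subtype.ext e)]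
        exact cm (Normal.conj_mem inferInstance _ (t1.map (mk' _)) _) (t1.map (mk' _))
      have c := h4 ((rad (h p) J).comap κ') fun x => (pel_mk.1 (c.ge (mem_top x))).imp fun k e => by
        rwa [mem_comap, map_pow]
      have := Finite.of_injective κ hκ
      have c := (hh p hp).of_rad n fun x => (hh p hp).comap_rad n κ'
        (fun x y e => hκ (congrArg (·.1.1) e)) ⟨by
          rintro _ ⟨x, rfl⟩ g
          obtain ⟨y, e⟩ := h2 g.1.1 g.2 x
          exact ⟨y, Subtype.ext (Subtype.ext e)⟩⟩ (c.ge (mem_top x))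
      have c := ((hh p hp).of inf_le_right).2 ((hh p hp).sn (hX _ (hh p hp) c) hM)
      rw [inf_subgroupOf_right] at c
      exact (hN (x * y).1).imp fun k e => le_rad inferInstance c e
    · obtain ⟨k, c⟩ := pel_mk.1 (map_mul (mk' (rad (h p) J)) _ _ ▸ b.2 p hp n _ _
        (pel.map (G := J) (a := ⟨x, pJ p hp e x hx⟩) (hx.imp fun _ => Subtype.ext) (mk' _))
        (pel.map (G := J) (a := ⟨y, pJ p hp e y hy⟩) (hy.imp fun _ => Subtype.ext) (mk' _)))
      exact ⟨k, (hh p hp).map_le n J ⟨_, c, rfl⟩⟩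
  obtain ⟨U, hU⟩ := psi key
  have := hU.1.1
  exact hS H U hU (hF.down (hU.2 key) inferInstance hK)

def Good (F : Cls) (q : ℕ) (A : Type) [Group A] : Prop :=
  ∃ (Y : Type) (_ : Group Y) (κ : A →* Y) (χ : Y →* Z q), F Y ∧ Injective κ ∧ κ.range.Normal ∧
    Surjective χ ∧ (∃ k, ∀ y : Y, y ^ q ^ k ∈ κ.range) ∧ (∀ a, χ (κ a) = 1) ∧
    (∀ t, χ t ≠ 1 → ∀ J : Subgroup A, (∀ a b, κ b = ⁅κ a, t⁆ → b ∈ J) → J = ⊤) ∧
    ∀ J : Subgroup A, (∀ a, ∃ k, a ^ q ^ k ∈ J) → J = ⊤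

theorem prod_top {J : Subgroup (G × H)} (h : J.comap (.inl G H) = ⊤) (h' : J.comap (.inr G H) = ⊤) :
    J = ⊤ := (eq_top_iff' _).2 fun g => g.fst_mul_snd ▸ mul_mem (h.ge (mem_top g.1))
      (h'.ge (mem_top g.2))

theorem Good.prod (hF : Fit F) (h : Good F q G) (h' : Good F q H) : Good F q (G × H) := by
  obtain ⟨Y, _, κ, χ, a1, a2, a3, a4, ⟨k, a5⟩, a6, a7, a8⟩ := h
  obtain ⟨Y', _, κ', χ', b1, b2, b3, b4, ⟨l, b5⟩, b6, b7, b8⟩ := h'
  let U := (χ.comp (.fst Y Y') / χ'.comp (.snd Y Y')).ker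
  have m : ∀ y, y ∈ U ↔ χ y.1 = χ' y.2 := fun y => div_eq_one
  refine ⟨U, inferInstance, (κ.prodMap κ').codRestrict U fun x => (m _).2 ((a6 _).trans (b6 _).symm),
    (χ.comp (.fst Y Y')).comp U.subtype, hF.2.2.1 _ _ inferInstance (hF.prod a1 b1), fun x y e =>
      Prod.ext (a2 (congrArg (·.1.1) e)) (b2 (congrArg (·.1.2) e)), ⟨?_⟩, fun z => ?_,
    ⟨k + l, fun y => ?_⟩, fun x => a6 _, fun t ht J hJ => prod_top (a7 t.1.1 ht _ fun a b e =>
      hJ (a, 1) _ (Subtype.ext (Prod.ext e ?_))) (b7 t.1.2 ((m _).1 t.2 ▸ ht) _ fun a b e =>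
        hJ (1, a) _ (Subtype.ext (Prod.ext ?_ e))), fun J hJ => prod_top
          (a8 _ fun a => (hJ (a, 1)).imp fun k e => by simpa using e)
          (b8 _ fun a => (hJ (1, a)).imp fun k e => by simpa using e)⟩
  · rintro _ ⟨x, rfl⟩ g
    obtain ⟨y, e⟩ := a3.conj_mem _ ⟨x.1, rfl⟩ g.1.1
    obtain ⟨z, e'⟩ := b3.conj_mem _ ⟨x.2, rfl⟩ g.1.2
    exact ⟨(y, z), Subtype.ext (Prod.ext e e')⟩
  · obtain ⟨y, e⟩ := a4 z
    obtain ⟨y', e'⟩ := b4 z
    exact ⟨⟨(y, y'), (m _).2 (e.trans e'.symm)⟩, e⟩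
  · obtain ⟨x, e⟩ := pow_mem (a5 y.1.1) (q ^ l)
    obtain ⟨x', e'⟩ := pow_mem (b5 y.1.2) (q ^ k)
    rw [← pow_mul, ← pow_add] at e e'
    exact ⟨(x, x'), Subtype.ext (Prod.ext e (add_comm l k ▸ e'))⟩
  · simp [commutatorElement_def]
  · simp [commutatorElement_def]

def hh (F : Cls) (q : ℕ) : Cls := fun B _ =>
  ∃ (A : Type) (_ : Group A), Good F q A ∧ ∀ X, Fit X → X A → X B

theorem hh_le (hF : Fit F) (h : hh F q G) : F G := by
  obtain ⟨A, _, ⟨Y, _, κ, χ, a1, a2, a3, -⟩, h⟩ := h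
  exact h F hF (hF.inj κ a2 a3 a1)

theorem fit_hh (hF : Fit F) : Fit (hh F q) := by
  refine ⟨fun _ _ h => hF.1 _ (hh_le hF h), fun _ _ _ _ e ⟨A, _, a, b⟩ => ⟨A, _, a, fun X hX c =>
    hX.2.1 _ _ e (b X hX c)⟩, fun _ _ _ n ⟨A, _, a, b⟩ => ⟨A, _, a, fun X hX c =>
      hX.2.2.1 _ _ n (b X hX c)⟩, fun _ _ _ _ _ n n' ⟨A, _, a, b⟩ ⟨A', _, a', b'⟩ =>
        ⟨A × A', _, a.prod hF a', fun X hX c => hX.2.2.2 _ _ _ n n'
          (b X hX (hX.inj (.inl A A') (fun _ _ e => congrArg Prod.fst e) ⟨?_⟩ c))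
          (b' X hX (hX.inj (.inr A A') (fun _ _ e => congrArg Prod.snd e) ⟨?_⟩ c))⟩⟩
  · rintro _ ⟨x, rfl⟩ f; exact ⟨f.1 * x * f.1⁻¹, by ext <;> simp⟩
  · rintro _ ⟨x, rfl⟩ f; exact ⟨f.2 * x * f.2⁻¹, by ext <;> simp⟩

theorem toZ [Finite G] [hq : Fact q.Prime] (M : Subgroup G) [M.Normal]
    (hM : ∀ N : Subgroup G, N.Normal → M < N → N = ⊤) {z : G ⧸ M} (hz : z ∈ center _)
    (h1 : z ≠ 1) (hp : pel q z) : ∃ χ : G →* Z q, Surjective χ ∧ χ.ker = M := by
  obtain ⟨w, hw⟩ := exists_prime_orderOf_dvd_card' (G := zpowers z) q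
    (Nat.card_zpowers z ▸ hp.dvd hq.1 h1)
  have s := mk'_surjective M
  have n : (zpowers w.1).Normal := ⟨fun x hx g => by
    rwa [mem_center_iff.1 (zpowers_le.2 (zpowers_le.2 hz w.2) hx) g, mul_inv_cancel_right]⟩
  have a := hM ((zpowers w.1).comap (mk' M)) inferInstance (lt_of_le_of_ne (fun x hx => by
    rw [mem_comap, show mk' M x = 1 from (eq_one_iff _).2 hx]; exact one_mem _) fun e => by
      obtain ⟨x, hx⟩ := s w
      have : x ∈ M := e.ge (mem_comap.2 (hx ▸ mem_zpowers _))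
      rw [show w = 1 from Subtype.ext (hx.symm.trans ((eq_one_iff _).2 this)), orderOf_one] at hw
      exact hq.1.one_lt.ne hw)
  have a : Nat.card (G ⧸ M) = q := by
    rw [← card_top, ← map_top_of_surjective _ s, ← a, map_comap_eq_self_of_surjective s,
      Nat.card_zpowers, orderOf_coe, hw]
  let i := mulEquivOfPrimeCardEq a (by simp : Nat.card (Z q) = q)
  exact ⟨i.toMonoidHom.comp (mk' M), i.surjective.comp s, by
    ext x; simp⟩

theorem cyc (N : Subgroup G) [N.Normal] {s : G} (h : ∀ g : G, ⁅g, s⁆ ∈ N)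
    (hs : normalClosure {s} = ⊤) (g : G) : ∃ k : ℤ, mk' N s ^ k = mk' N g := by
  have : (zpowers (mk' N s)).Normal := ⟨fun x hx g => by
    have : mk' N s ∈ center _ := mem_center_iff.2 fun g => by
      obtain ⟨g, rfl⟩ := mk'_surjective N g
      rw [← commute_iff_eq, ← commutatorElement_eq_one_iff_commute, ← map_commutatorElement]
      exact (eq_one_iff _).2 (h g)
    rwa [mem_center_iff.1 (zpowers_le.2 this hx) g, mul_inv_cancel_right]⟩
  exact (normalClosure_le_normal (N := (zpowers (mk' N s)).comap (mk' N))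
    (Set.singleton_subset_iff.2 (mem_zpowers _))) (hs.ge (mem_top g))

theorem good_of [hq : Fact q.Prime] [Finite G] [Group.IsSolvable G] (h : F G) {y : G}
    (hy : pel q y) (h1 : y ≠ 1) (hn : normalClosure {y} = ⊤) :
    ∃ A : Subgroup G, A.Normal ∧ (∀ g, ∃ k, g ^ q ^ k ∈ A) ∧ Good F q A := by
  let A := closure {x : G | (orderOf x).Coprime q}
  have n : A.Normal := ⟨fun x hx g => by
    have : A.map (MulAut.conj g).toMonoidHom ≤ A := by
      rw [MonoidHom.map_closure]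
      rintro _ hx
      refine closure_mono ?_ hx
      rintro _ ⟨x, hx, rfl⟩
      exact Nat.Coprime.coprime_dvd_left (orderOf_map_dvd _ x) hx
    exact this ⟨x, hx, rfl⟩⟩
  obtain ⟨k, m, hm, e⟩ := Nat.exists_eq_pow_mul_and_not_dvd (Nat.card_pos (α := G)).ne' q
    hq.1.one_lt.ne'
  have a : ∀ g : G, g ^ q ^ k ∈ A := fun g => subset_closure
    ((hq.1.coprime_iff_not_dvd.2 hm).symm.coprime_dvd_left (orderOf_dvd_of_pow_eq_one (by
      rw [← pow_mul, ← e, pow_card_eq_one'])))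
  have b : ∀ J : Subgroup G, (∀ a ∈ A, ∃ k, a ^ q ^ k ∈ J) → A ≤ J := fun J hJ =>
    (closure_le _).2 fun x hx => (hJ x (subset_closure hx)).elim fun k e =>
      mem_of_cop (Nat.Coprime.pow_right k hx).symm e (pow_orderOf_eq_one x)
  have : Nontrivial G := nontrivial_of_ne _ _ h1
  obtain ⟨M, hM, c⟩ := (eq_top_or_exists_le_coatom (commutator G)).resolve_left
    (Group.IsSolvable.commutator_lt_top_of_nontrivial G).ne
  have cG : ∀ g s : G, ⁅g, s⁆ ∈ commutator G := fun g s =>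
    commutator_mem_commutator (mem_top g) (mem_top s)
  have : M.Normal := ⟨fun x hx g => by simpa [commutatorElement_def] using mul_mem (c (cG g x)) hx⟩
  obtain ⟨χ, d1, d2⟩ := toZ M (fun N _ => hM.2 N) (z := mk' M y) (mem_center_iff.2 fun g => by
    obtain ⟨g, rfl⟩ := mk'_surjective M g
    rw [← commute_iff_eq, ← commutatorElement_eq_one_iff_commute, ← map_commutatorElement]
    exact (eq_one_iff _).2 (c (cG _ _))) (fun e => hM.1 (eq_top_iff.2 (hn.ge.trans
      (normalClosure_le_normal (Set.singleton_subset_iff.2 ((eq_one_iff _).1 e)))))) (hy.map _)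
  refine ⟨A, n, fun g => ⟨k, a g⟩, G, inferInstance, A.subtype, χ, h, A.subtype_injective,
    by rwa [range_subtype], d1, ⟨k, by rwa [range_subtype]⟩, fun x => b χ.ker
      (fun x _ => ⟨1, by rw [MonoidHom.mem_ker, map_pow, pow_one, zq]⟩) x.2, fun t ht J hJ => ?_,
    fun J hJ => (eq_top_iff' _).2 fun x => ?_⟩
  swap
  · obtain ⟨z, hz, e⟩ := b (J.map A.subtype) (fun x hx => (hJ ⟨x, hx⟩).imp fun k e => ⟨_, e, rfl⟩) x.2
    exact (Subtype.ext e : z = x) ▸ hz
  have t1 : normalClosure {t} = ⊤ := by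
    let N := normalClosure {t}
    obtain ⟨j, hj⟩ := cyc (commutator G) (fun g => cG g y) hn t
    obtain ⟨l, hl⟩ := hy
    replace hj : (y ^ j)⁻¹ * t ∈ commutator G :=
      QuotientGroup.eq.1 (by rw [← map_zpow] at hj; exact hj)
    have a : y ∈ N ⊔ commutator G := by
      have a : y ^ j ∈ N ⊔ commutator G := by
        have := mul_mem (mem_sup_left (T := commutator G) (subset_normalClosure (s := {t}) rfl))
          (inv_mem (mem_sup_right hj))
        rwa [mul_inv_rev, inv_inv, mul_inv_cancel_left] at this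
      have b : ¬ q ∣ j.natAbs := fun e => ht (by
        obtain ⟨i, rfl⟩ := Int.natCast_dvd.2 e
        have : χ ((y ^ (q * i : ℤ))⁻¹ * t) = 1 := (c.trans d2.ge) hj
        rwa [map_mul, map_inv, map_zpow, zpow_mul, zpow_natCast, zq, one_zpow, inv_one,
          one_mul] at this)
      refine mem_of_cop ((hq.1.coprime_iff_not_dvd.2 b).pow_left l).symm ?_ hl
      rcases Int.natAbs_eq j with e | e
      · rwa [e, zpow_natCast] at a
      · rwa [e, zpow_neg, zpow_natCast, inv_mem_iff] at a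
    have a : N ⊔ commutator G = ⊤ := eq_top_iff.2 (hn.ge.trans
      (normalClosure_le_normal (Set.singleton_subset_iff.2 a)))
    by_contra e
    have : Nontrivial (G ⧸ N) := QuotientGroup.nontrivial_iff.2 e
    refine (Group.IsSolvable.commutator_lt_top_of_nontrivial (G ⧸ N)).ne ?_
    have := congrArg (Subgroup.map (mk' N)) a
    rwa [Subgroup.map_sup, map_mk'_self, bot_sup_eq, map_top_of_surjective _ (mk'_surjective N),
      _root_.commutator_def, map_commutator, map_top_of_surjective _ (mk'_surjective N)] at this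
  have t2 : A ⊔ zpowers t = ⊤ := by
    have p : IsPGroup q (G ⧸ A) := fun g => by
      obtain ⟨g, rfl⟩ := mk'_surjective A g
      exact pel_mk.2 ⟨k, a g⟩
    have := p.isNilpotent
    rcases eq_top_or_exists_le_coatom (zpowers (mk' A t)) with e | ⟨U, hU, e⟩
    · rw [sup_comm, ← ker_mk' A, ← comap_map_eq, MonoidHom.map_zpowers, e, comap_top]
    have := NormalizerCondition.normal_of_coatom U Group.normalizerCondition_of_isNilpotent hU
    refine absurd (eq_top_iff.2 fun g _ => ?_) hU.1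
    obtain ⟨g, rfl⟩ := mk'_surjective A g
    exact normalClosure_le_normal (N := U.comap (mk' A))
      (Set.singleton_subset_iff.2 (e (mem_zpowers _))) (t1.ge (mem_top g))
  let C := closure {x | ∃ a ∈ A, ⁅a, t⁆ = x}
  have nz : ∀ g, (∀ a ∈ A, g * ⁅a, t⁆ * g⁻¹ ∈ C) → g ∈ normalizer (C : Set G) := fun g hg => by
    refine mem_normalizer_iff_map_conj_eq.2 (eq_of_le_of_card_ge ?_
      (card_map_of_injective (MulAut.conj g).injective).ge)
    rw [MonoidHom.map_closure, closure_le]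
    rintro _ ⟨_, ⟨a, ha, rfl⟩, rfl⟩
    exact hg a ha
  have : C.Normal := normalizer_eq_top_iff.1 (eq_top_iff.2 (t2.ge.trans (sup_le (fun g hg =>
    nz g fun a ha => by
      rw [show g * ⁅a, t⁆ * g⁻¹ = ⁅g * a, t⁆ * ⁅g, t⁆⁻¹ by simp only [commutatorElement_def]; group]
      exact mul_mem (subset_closure ⟨_, mul_mem hg ha, rfl⟩) (inv_mem (subset_closure ⟨_, hg, rfl⟩)))
    (zpowers_le.2 (nz t fun a ha => subset_closure ⟨_, n.conj_mem a ha t, by
      simp only [commutatorElement_def]; group⟩)))))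
  have t3 := cyc C (s := t) (fun g => by
    obtain ⟨a, ha, _, ⟨i, rfl⟩, rfl⟩ := mem_sup_of_normal_left.1 (t2.ge (mem_top g))
    exact subset_closure ⟨a, ha, by simp only [commutatorElement_def]; group⟩) t1
  have t4 := cyc C (s := y) (fun g => by
    obtain ⟨i, e⟩ := t3 g
    obtain ⟨j, e'⟩ := t3 y
    refine (eq_one_iff _).1 (?_ : mk' C _ = 1)
    rw [map_commutatorElement, ← e, ← e', commutatorElement_eq_one_iff_commute]
    exact Commute.zpow_zpow_self _ _ _) hn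
  have t5 := b C fun x _ => pel_mk.1 (by
    obtain ⟨i, e⟩ := t4 x
    exact (hy.map (mk' C)).imp fun l a => by
      rw [← e, ← zpow_natCast, ← zpow_mul, mul_comm, zpow_mul, zpow_natCast, a, one_zpow])
  have t6 : C ≤ J.map A.subtype := (closure_le _).2 (by
    rintro _ ⟨a, ha, rfl⟩
    have : ⁅a, t⁆ ∈ A := by
      simpa only [commutatorElement_def, mul_assoc] using mul_mem ha (n.conj_mem _ (inv_mem ha) t)
    exact ⟨⟨_, this⟩, hJ ⟨a, ha⟩ _ rfl, rfl⟩)
  refine (eq_top_iff' _).2 fun x => ?_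
  obtain ⟨z, hz, e⟩ := t6 (t5 x.2)
  exact (Subtype.ext e : z = x) ▸ hz

end Pool.Agent.H.MP_035081_al
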