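import Pool.Agent.H.MP_035081_al.B

set_option autoImplicit false

namespace Pool.Agent.H.MP_035081_al
open Function Subgroup QuotientGroup RegularWreathProduct
open scoped commutatorElement

variable {G Y Y' Q : Type} [Group G] [Group Y] [Group Y'] [Group Q] {F : Cls} {q : ℕ}

def base (D Q : Type) [Group D] [Group Q] : (Q → D) →* RegularWreathProduct D Q :=
  MonoidHom.mk' (fun v => ⟨v, 1⟩) fun a b => by ext <;> simp

def wmap (f : Y →* Y') : RegularWreathProduct Y Q →* RegularWreathProduct Y' Q :=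
  MonoidHom.mk' (fun w => ⟨fun x => f (w.left x), w.right⟩) fun a b => by ext <;> simp

theorem base_eq {w : RegularWreathProduct Y Q} (h : w.right = 1) : base Y Q w.left = w :=
  RegularWreathProduct.ext rfl h.symm

theorem base_inj : Injective (base Y Q) := fun _ _ e => congrArg (·.left) e

def tau [Fact q.Prime] (χ : Y →* Z q) : RegularWreathProduct Y (Z q) →* Z q :=
  MonoidHom.mk' (fun w => ∏ x, χ (w.left x)) fun a b => by
    simp only [mul_left, Pi.mul_apply, map_mul, Finset.prod_mul_distrib]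
    congr 1
    exact Equiv.prod_comp (Equiv.mulLeft a.right⁻¹) fun x => χ (b.left x)

theorem tau_single [Fact q.Prime] (χ : Y →* Z q) (y : Y) (s : Z q) :
    tau χ ⟨Pi.mulSingle 1 y, s⟩ = χ y := by
  simp [tau, Pi.mulSingle_apply, apply_ite χ]

theorem pw [hq : Fact q.Prime] (χ : Y →* Z q) {w : RegularWreathProduct Y (Z q)}
    (h : w.right ≠ 1) : χ ((w ^ q).left 1) = tau χ w := by
  have a : ∀ n, χ ((w ^ n).left 1) = ∏ i ∈ Finset.range n, χ (w.left (w.right ^ i)⁻¹) := fun n => by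
    induction n with
    | zero => simp
    | succ n ih =>
      rw [pow_succ, Finset.prod_range_succ, ← ih, mul_left, Pi.mul_apply, map_mul, mul_one,
        show (w ^ n).right = w.right ^ n from map_pow rightHom w n]
  have o := orderOf_eq_prime (zq _) h
  rw [a]
  refine Finset.prod_bij (fun i _ => (w.right ^ i)⁻¹) (fun _ _ => Finset.mem_univ _)
    (fun i hi j hj e => pow_injOn_Iio_orderOf (x := w.right) (by simpa [o] using hi)
      (by simpa [o] using hj) (inv_injective e)) (fun z _ => ?_) fun _ _ => rfl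
  obtain ⟨i, hi, e⟩ := Finset.mem_image.1 (mem_zpowers_iff_mem_range_orderOf.1
    (mem_zpowers_of_prime_card (p := q) (by simp) h : z⁻¹ ∈ zpowers w.right))
  exact ⟨i, o ▸ hi, by rw [e, inv_inv]⟩

theorem ext_step [hq : Fact q.Prime] (hF : Fit F) (hS : Saturated F) [Finite G] (φ : G →* Z q)
    (hR : F φ.ker) (B : Subgroup G) [B.Normal] (hB : ∀ g, ∃ k, g ^ q ^ k ∈ B) (hB' : hh F q B)
    (le : B ≤ φ.ker) : F G := by
  obtain ⟨A, _, ⟨Y, _, κ, χ, a1, a2, a3, a4, ⟨k, a5⟩, a6, a7, a8⟩, a9⟩ := hB'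
  have := hF.1 _ a1
  let W := RegularWreathProduct Y (Z q)
  let r : G × W →* Z q := rightHom.comp (.snd G W)
  let H : (Z q →* Z q) → Subgroup (G × W) := fun θ =>
    (φ.comp (.fst G W) / θ.comp r).ker ⊓ ((tau χ).comp (.snd G W) / r).ker
  have m : ∀ θ d, d ∈ H θ ↔ φ d.1 = θ d.2.right ∧ tau χ d.2 = d.2.right := fun θ d =>
    and_congr div_eq_one div_eq_one
  have key : ∀ θ, F (H θ) := fun θ => by
    let K := ((tau χ).comp ((base Y (Z q)).comp (.snd φ.ker _))).ker
    let κ0 : A →* H θ := ((MonoidHom.inr G W).comp ((base Y (Z q)).comp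
      ((MonoidHom.mulSingle (fun _ => Y) 1).comp κ))).codRestrict _ fun a => (m _ _).2
        ⟨(map_one φ).trans (map_one θ).symm, (tau_single χ _ _).trans (a6 a)⟩
    have c : ∀ g : H θ, g.1.2.right = 1 → ∀ a b, κ b = g.1.2.left 1 * κ a * (g.1.2.left 1)⁻¹ →
        κ0 b = g * κ0 a * g⁻¹ := fun g hg a b e => by
      refine Subtype.ext (Prod.ext (by simp [κ0]) ?_)
      show base Y (Z q) (Pi.mulSingle 1 (κ b)) = g.1.2 * base Y (Z q) (Pi.mulSingle 1 (κ a)) * g.1.2⁻¹
      rw [← base_eq hg, ← map_inv, ← map_mul, ← map_mul, e]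
      refine congrArg _ (funext fun x => ?_)
      by_cases e : x = 1
      · subst e; simp
      · simp [e]
    refine sat hF hS (r.comp (H θ).subtype) ((hF.rng (((φ.ker.subtype.prodMap (base Y (Z q))).comp
      K.subtype).codRestrict (H θ) fun x => (m _ _).2 ⟨x.1.1.2.trans (map_one θ).symm, x.2⟩)
        (fun x y e => Subtype.ext (Prod.ext (Subtype.ext (congrArg (·.1.1) e))
          (congrArg (·.1.2.left) e))) ?_).1 (hF.2.2.1 _ K inferInstance
            (hF.prod hR (hF.pi a1 _)))) ((B.prod (wmap (mk' κ.range)).ker).comap (H θ).subtype)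
      (fun g => ?_) (fun X hX h => (hX.rng ((B.subtype.prodMap ((base Y (Z q)).comp
        (κ.compLeft _))).codRestrict (H θ) fun x => (m _ _).2 ⟨(le x.1.2).trans (map_one θ).symm,
          Finset.prod_eq_one fun i _ => a6 _⟩) (fun x y e => Prod.ext
            (Subtype.ext (congrArg (·.1.1) e)) (funext fun i => a2 (congrArg (·.1.2.left i) e)))
              ?_).1 (hX.prod (a9 X hX h) (hX.pi h _))) κ0 (fun x y e => a2 (by
                simpa [κ0, base] using congrArg (·.1.2.left 1) e)) (fun a => rfl) (fun g hg a => ?_)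
      (fun u hu => ?_) a8
    · refine le_antisymm (by rintro _ ⟨x, rfl⟩; rfl) fun g hg => ?_
      obtain ⟨b1, b2⟩ := (m _ _).1 g.2
      have e : g.1.2.right = 1 := hg
      rw [e] at b1 b2
      exact ⟨⟨(⟨g.1.1, b1.trans (map_one θ)⟩, g.1.2.left), (congrArg (tau χ) (base_eq e)).trans b2⟩,
        Subtype.ext (Prod.ext rfl (base_eq e))⟩
    · obtain ⟨l, hl⟩ := hB g.1.1
      have e : (g.1.2 ^ q).right = 1 := (map_pow rightHom _ q).trans (zq _)
      refine ⟨l + (1 + k), ?_, ?_⟩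
      · show g.1.1 ^ _ ∈ B
        rw [pow_add, pow_mul]; exact pow_mem hl _
      · show wmap _ (g.1.2 ^ _) = 1
        rw [add_comm, pow_add, pow_mul, pow_add, pow_mul, pow_one, ← base_eq e, ← map_pow,
          map_pow (wmap _), show wmap (mk' κ.range) (base Y (Z q) ((g.1.2 ^ q).left ^ q ^ k)) = 1 from
            RegularWreathProduct.ext (funext fun x => (eq_one_iff _).2 (a5 _)) rfl, one_pow]
    · refine le_antisymm ?_ fun g hg => ?_
      · rintro _ ⟨x, rfl⟩
        exact ⟨x.1.2, RegularWreathProduct.ext (funext fun i => (eq_one_iff _).2 ⟨_, rfl⟩) rfl⟩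
      · have e : g.1.2.right = 1 := congrArg (·.right) hg.2
        choose f hf using fun i => (eq_one_iff (N := κ.range) _).1 (congrArg (·.left i) hg.2)
        exact ⟨(⟨g.1.1, hg.1⟩, f), Subtype.ext (Prod.ext rfl
          (RegularWreathProduct.ext (funext hf) e.symm))⟩
    · obtain ⟨b, e⟩ := a3.conj_mem _ ⟨a, rfl⟩ (g.1.2.left 1)
      exact ⟨b, c g hg a b e⟩
    · have b : χ ((u.1.2 ^ q).left 1) ≠ 1 := by rw [pw χ (w := u.1.2) hu, ((m _ _).1 u.2).2]; exact hu
      refine ⟨fun e => b ((congrArg (fun d => χ (d.1.2.left 1)) e).trans (map_one χ)),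
        fun J hJ => a7 _ b J fun x y e => hJ x y ?_⟩
      have := c (u ^ q) ((map_pow rightHom _ q).trans (zq _)) x⁻¹ (x⁻¹ * y) (by
        rw [map_mul, e, map_inv, commutatorElement_def]
        show _ = (u.1.2 ^ q).left 1 * _ * ((u.1.2 ^ q).left 1)⁻¹
        group)
      rw [map_mul, map_inv, inv_mul_eq_iff_eq_mul] at this
      rw [this, commutatorElement_def]
      group
  have a := hF.2.2.2 _ _ _ inferInstance inferInstance (key (.id _)) (key 1)
  have n : (MonoidHom.inl G W).range.Normal :=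
    ⟨by rintro _ ⟨x, rfl⟩ f; exact ⟨f.1 * x * f.1⁻¹, by ext <;> simp⟩⟩
  refine (hF.rng (.inl G W) (fun _ _ e => congrArg Prod.fst e) rfl).2
    (hF.down ?_ inferInstance a)
  rintro _ ⟨g, rfl⟩
  obtain ⟨y, hy⟩ := a4 (φ g)
  let w : W := ⟨Pi.mulSingle 1 y, φ g⟩
  have b : tau χ w = w.right := (tau_single χ _ _).trans hy
  simpa using mul_mem (mem_sup_left ((m (.id _) (g, w)).2 ⟨rfl, b⟩))
    (inv_mem (mem_sup_right ((m 1 (1, w)).2 ⟨map_one φ, b⟩)))

theorem LR.down {h : ℕ → Cls} (hh : ∀ p, p.Prime → Fit (h p)) [Finite G] (a : LR h G)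
    (N : Subgroup G) [N.Normal] : LR h N :=
  ⟨fun p hp d => a.1 p hp (d.trans (card_subgroup_dvd_card N)), fun p hp n => pc_of hp
    fun x y hx hy => ((pel_mk (a := x.1 * y.1)).1 (a.2 p hp n _ _
      ((hx.map N.subtype).map (mk' _)) ((hy.map N.subtype).map (mk' _)))).imp fun _ e =>
        (hh p hp).comap_rad n N.subtype N.subtype_injective (by rwa [range_subtype]) e⟩

theorem card_lt [Finite G] {N : Subgroup G} (h : N ≠ ⊤) : Nat.card N < Nat.card G :=
  (card_le_card_group N).lt_of_ne fun e => h (eq_top_of_card_eq N e)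

theorem up (hF : Fit F) (ne : NE F) (hS : Saturated F) (k : ℕ) : ∀ (G : Type) [Group G] [Finite G],
    Nat.card G < k → LR (hh F) G → F G := by
  induction k with
  | zero => exact fun G _ _ h => absurd h (Nat.not_lt_zero _)
  | succ k ih =>
  intro G _ _ hk h
  by_cases e : rad F G = ⊤
  · exact hF.of_rad ne fun g => e.ge (mem_top g)
  have a : ∀ N : Subgroup G, N.Normal → ¬ N ≤ rad F G → N = ⊤ := fun N n b => by_contra fun c =>
    b (le_rad n (ih N (by have := card_lt c; omega) (h.down (fun _ _ => fit_hh hF) N)))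
  have : Nontrivial (G ⧸ rad F G) := QuotientGroup.nontrivial_iff.2 e
  obtain ⟨q, hq, d⟩ := Nat.exists_prime_and_dvd (Finite.one_lt_card (α := G ⧸ rad F G)).ne'
  have : Fact q.Prime := ⟨hq⟩
  have n := h.1 q hq (d.trans (card_quotient_dvd_card _))
  have b := a ((pels (h.2 q hq n)).comap (mk' _)) inferInstance fun b => by
    obtain ⟨z, hz⟩ := exists_prime_orderOf_dvd_card' q d
    obtain ⟨z, rfl⟩ := mk'_surjective _ z
    obtain ⟨j, c1, c2⟩ := lift hq (mk' (rad F G)) (a := z)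
      ⟨1, by rw [pow_one, ← hz, pow_orderOf_eq_one]⟩
    rw [← c2, show mk' (rad F G) (z ^ j) = 1 from (eq_one_iff _).2 (b (c1.map (mk' _))),
      orderOf_one] at hz
    exact hq.one_lt.ne hz
  have b := fun g => pel_mk.1 (b.ge (mem_top g))
  have c := (fit_hh (q := q) hF).rad_mem (G := G) n
  have le := le_rad inferInstance (hh_le hF c)
  have p : IsPGroup q (G ⧸ rad F G) := fun g => by
    obtain ⟨g, rfl⟩ := mk'_surjective _ g
    exact pel_mk.2 ((b g).imp fun _ e => le e)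
  have := p.center_nontrivial
  obtain ⟨z, hz⟩ := exists_ne (1 : center (G ⧸ rad F G))
  obtain ⟨φ, -, e⟩ := toZ _ (fun N n l => a N n l.not_ge) z.2 (fun e => hz (Subtype.ext e)) (p _)
  exact ext_step hF hS φ (e ▸ hF.rad_mem ne) _ b c (e ▸ le)

theorem down [hq : Fact q.Prime] (hF : Fit F) (hs : ∀ (G : Type) [Group G], F G → Group.IsSolvable G)
    (k : ℕ) : ∀ (G : Type) [Group G] [Finite G], Nat.card G < k → F G →
      (q ∣ Nat.card G → NE (hh F q)) ∧ (NE (hh F q) → PC q (G ⧸ rad (hh F q) G)) := by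
  induction k with
  | zero => exact fun G _ _ h => absurd h (Nat.not_lt_zero _)
  | succ k ih =>
  intro G _ _ hk h
  have := hs G h
  have X := fit_hh (q := q) hF
  by_cases e : ∃ y : G, pel q y ∧ y ≠ 1 ∧ normalClosure {y} = ⊤
  · obtain ⟨y, a, b, c⟩ := e
    obtain ⟨A, n, d, e⟩ := good_of h a b c
    have : hh F q A := ⟨A, _, e, fun _ _ h => h⟩
    exact ⟨fun _ => ⟨A, _, this⟩, fun _ => pc_of hq.1 fun x y _ _ =>
      (d _).imp fun _ e => le_rad n this e⟩
  have a : ∀ y : G, pel q y → y ≠ 1 → _ := fun y a b => ih (normalClosure {y}) (by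
    have := card_lt fun c => e ⟨y, a, b, c⟩; omega) (hF.2.2.1 _ _ inferInstance h)
  refine ⟨fun d => ?_, fun n => ?_⟩
  · obtain ⟨y, hy⟩ := exists_prime_orderOf_dvd_card' q d
    exact (a y ⟨1, by rw [pow_one, ← hy, pow_orderOf_eq_one]⟩ (fun e => hq.1.one_lt.ne (by
      rw [← hy, e, orderOf_one]))).1 (hy ▸ Subgroup.orderOf_dvd_natCard _
        (subset_normalClosure rfl))
  have b : ∀ y : G, pel q y → ∃ S : Subgroup (G ⧸ rad (hh F q) G), S.Normal ∧ IsPGroup q S ∧
      mk' _ y ∈ S := fun y hy => by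
    by_cases c : y = 1
    · exact ⟨⊥, inferInstance, .of_bot, by simp [c]⟩
    let N := normalClosure {y}
    let T := ((pels ((a y hy c).2 n)).comap (mk' _)).map N.subtype
    have d : ∀ x, x ∈ T ↔ x ∈ N ∧ ∃ k, x ^ q ^ k ∈ (rad (hh F q) N).map N.subtype := fun x =>
      ⟨by rintro ⟨x, hx, rfl⟩; exact ⟨x.2, (pel_mk.1 hx).imp fun _ e => ⟨_, e, rfl⟩⟩,
        fun ⟨a, b⟩ => ⟨⟨x, a⟩, pel_mk.2 (b.imp fun _ ⟨z, e, e'⟩ =>
          (Subtype.ext e' : z = ⟨x, a⟩ ^ _) ▸ e), rfl⟩⟩
    have : T.Normal := ⟨fun x hx g => (d _).2 ⟨Normal.conj_mem inferInstance _ ((d x).1 hx).1 g,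
      ((d x).1 hx).2.imp fun _ e => by rw [conj_pow]; exact (X.map_rad N).conj_mem _ e g⟩⟩
    refine ⟨T.map (mk' _), this.map _ (mk'_surjective _), ?_, y, (d y).2
      ⟨subset_normalClosure rfl, Exists.imp (fun _ e => by rw [e]; exact one_mem _) hy⟩, rfl⟩
    rintro ⟨_, x, hx, rfl⟩
    exact (pel_mk.2 (((d x).1 hx).2.imp fun _ e => X.map_le n N e)).imp fun _ => Subtype.ext
  refine pc_of hq.1 fun x y hx hy => pel_mk.1 ?_
  obtain ⟨S, s1, s2, s3⟩ := b x hx
  obtain ⟨T, t1, t2, t3⟩ := b y hy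
  exact (s2.to_sup_of_normal_right t2 ⟨_, mul_mem (mem_sup_left s3) (mem_sup_right t3)⟩).imp
    fun _ => congrArg Subtype.val

theorem main (hF : Fit F) (ne : NE F) (hs : ∀ (G : Type) [Group G], F G → Group.IsSolvable G)
    (hS : Saturated F) : Local F :=
  (local_iff hF).2 ⟨hh F, fun _ _ => fit_hh hF, fun G _ _ => ⟨fun h => ⟨fun _ hp =>
    have := Fact.mk hp; (down hF hs _ G (Nat.lt_succ_self _) h).1, fun _ hp =>
      have := Fact.mk hp; (down hF hs _ G (Nat.lt_succ_self _) h).2⟩,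
        up hF ne hS _ G (Nat.lt_succ_self _)⟩⟩

end Pool.Agent.H.MP_035081_al
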