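import Mathlib

set_option autoImplicit false

namespace Pool.Agent.H.MP_035081_al

/-- A class of groups, as a predicate. -/
def Cls : Type 1 := ∀ (G : Type) [Group G], Prop

/-- A Fitting class of finite groups (possibly empty). -/
def Fit (X : Cls) : Prop :=
  (∀ (G : Type) [Group G], X G → Finite G) ∧
  (∀ (G H : Type) [Group G] [Group H], Nonempty (G ≃* H) → X G → X H) ∧
  (∀ (G : Type) [Group G] (N : Subgroup G), N.Normal → X G → X N) ∧
  ∀ (G : Type) [Group G] [Finite G] (N K : Subgroup G), N.Normal → K.Normal → X N → X K →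
    X (N ⊔ K : Subgroup G)

/-- The class is not empty. -/
def NE (X : Cls) : Prop := ∃ (G : Type) (_ : Group G), X G

/-- The radical: the join of all normal `X`-subgroups. -/
def rad (X : Cls) (G : Type) [Group G] : Subgroup G := sSup {N | N.Normal ∧ X N}

instance (X : Cls) (G : Type) [Group G] : (rad X G).Normal :=
  Subgroup.sSup_normal _ fun _ h => h.1

/-- The product of classes. -/
def prod (X Y : Cls) : Cls := fun G _ => NE X ∧ Finite G ∧ Y (G ⧸ rad X G)

/-- Finite `p`-groups. -/
def Np (p : ℕ) : Cls := fun G _ => Finite G ∧ IsPGroup p G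

/-- Finite `p'`-groups. -/
def Ec (p : ℕ) : Cls := fun G _ => Finite G ∧ ¬ p ∣ Nat.card G

/-- Local Fitting classes in the sense of Hartley. -/
def Local (F : Cls) : Prop := Fit F ∧ ∃ h : ℕ → Cls, (∀ p, p.Prime → Fit (h p)) ∧
  ∀ (G : Type) [Group G], F G ↔ (Finite G ∧ ∀ p, p.Prime → p ∣ Nat.card G → NE (h p)) ∧
    ∀ p, p.Prime → NE (h p) → prod (h p) (prod (Np p) (Ec p)) G

/-- The intersection of all local Fitting classes containing `M`. -/
def lFit (M : Type) [Group M] : Cls := fun G _ => ∀ L : Cls, Local L → L M → L G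

/-- The normal subgroups among which `Ψ(G)` is the smallest. -/
def PsiSet (G : Type) [Group G] : Set (Subgroup G) := {N | N.Normal ∧ ∀ M : Subgroup G,
  M.IsSubnormal → ∀ (S : Type) [Group S], lFit (N ⊓ M : Subgroup G) S ↔ lFit M S}

/-- Saturated classes. -/
def Saturated (F : Cls) : Prop := ∀ (G : Type) [Group G] [Finite G] (N : Subgroup G),
  IsLeast (PsiSet G) N → F N → F G

end Pool.Agent.H.MP_035081_al
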